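import Pool.Agent.Lib.MP_2d002d_gt.Basic

/-!
# MP_2d002d_gt, module M8 (`Diff`): log-concavity in time from the static inequality
-/

set_option autoImplicit false

open MeasureTheory Set Filter Topology
open scoped ContDiff

namespace Pool.Agent.Lib.MP_2d002d_gt.H70

variable {n : ℕ}

/-- sum of squares -/
noncomputable def S2 (x : Fin n → ℝ) : ℝ := ∑ i, x i ^ 2

lemma S2_nonneg (x : Fin n → ℝ) : 0 ≤ S2 x := Finset.sum_nonneg fun i _ => sq_nonneg (x i)

lemma continuous_S2 : Continuous (S2 : (Fin n → ℝ) → ℝ) := by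
  unfold S2
  fun_prop

lemma le_S2 (x : Fin n → ℝ) (i : Fin n) : x i ^ 2 ≤ S2 x :=
  Finset.single_le_sum (f := fun i => x i ^ 2) (fun i _ => sq_nonneg (x i)) (Finset.mem_univ i)

lemma integrable_gauss {c : ℝ} (hc : 0 < c) :
    Integrable (fun x : Fin n → ℝ => Real.exp (-(c * S2 x))) := by
  have h : (fun x : Fin n → ℝ => Real.exp (-(c * S2 x))) =
      fun x => ∏ i, Real.exp (-c * x i ^ 2) := by
    ext x
    rw [← Real.exp_sum]
    congr 1
    unfold S2
    rw [Finset.mul_sum, ← Finset.sum_neg_distrib]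
    refine Finset.sum_congr rfl fun i _ => ?_
    ring
  rw [h]
  exact Integrable.fintype_prod (f := fun _ (y : ℝ) => Real.exp (-c * y ^ 2))
    (fun _ => integrable_exp_neg_mul_sq hc)

lemma poly_le {c : ℝ} (hc : 0 < c) {y : ℝ} (hy : 0 ≤ y) :
    (1 + y) ^ 2 ≤ (2 + 16 / c ^ 2) * Real.exp (c * y / 2) := by
  have h := Real.quadratic_le_exp_of_nonneg (x := c * y / 2) (by positivity)
  have h1 : 1 ≤ Real.exp (c * y / 2) := Real.one_le_exp (by positivity)
  have h2 : y ^ 2 ≤ 8 / c ^ 2 * Real.exp (c * y / 2) := by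
    have : (c * y / 2) ^ 2 / 2 ≤ Real.exp (c * y / 2) := by
      have : 0 ≤ c * y / 2 := by positivity
      linarith
    have e : y ^ 2 = 8 / c ^ 2 * ((c * y / 2) ^ 2 / 2) := by
      field_simp
      ring
    rw [e]
    exact mul_le_mul_of_nonneg_left this (by positivity)
  have h3 : (1 + y) ^ 2 ≤ 2 * 1 + 2 * y ^ 2 := by nlinarith [sq_nonneg (1 - y)]
  calc (1 + y) ^ 2 ≤ 2 * 1 + 2 * y ^ 2 := h3
    _ ≤ 2 * Real.exp (c * y / 2) + 2 * (8 / c ^ 2 * Real.exp (c * y / 2)) := by gcongr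
    _ = (2 + 16 / c ^ 2) * Real.exp (c * y / 2) := by ring

lemma integrable_poly_gauss {c : ℝ} (hc : 0 < c) :
    Integrable (fun x : Fin n → ℝ => (1 + S2 x) ^ 2 * Real.exp (-(c * S2 x))) := by
  refine Integrable.mono' ((integrable_gauss (n := n) (c := c / 2) (by positivity)).const_mul
    (2 + 16 / c ^ 2)) ?_ (Eventually.of_forall fun x => ?_)
  · have := continuous_S2 (n := n)
    exact (by fun_prop : Continuous (fun x : Fin n → ℝ =>
      (1 + S2 x) ^ 2 * Real.exp (-(c * S2 x)))).aestronglyMeasurable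
  · rw [Real.norm_of_nonneg (by positivity)]
    have h := poly_le hc (S2_nonneg x)
    calc (1 + S2 x) ^ 2 * Real.exp (-(c * S2 x))
        ≤ (2 + 16 / c ^ 2) * Real.exp (c * S2 x / 2) * Real.exp (-(c * S2 x)) := by gcongr
      _ = (2 + 16 / c ^ 2) * Real.exp (-(c / 2 * S2 x)) := by
        rw [mul_assoc, ← Real.exp_add]
        congr 2
        ring

/-- the abstract differentiation lemma -/
lemma logconc_abstract (W Wt Wtt : ℝ → (Fin n → ℝ) → ℝ) (t0 t1 : ℝ)
    (hW : ∀ t ∈ Ioo t0 t1, Continuous (W t)) (hWt : ∀ t ∈ Ioo t0 t1, Continuous (Wt t))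
    (hWtt : ∀ t ∈ Ioo t0 t1, Continuous (Wtt t))
    (h1 : ∀ x, ∀ t ∈ Ioo t0 t1, HasDerivAt (fun t => W t x) (Wt t x) t)
    (h2 : ∀ x, ∀ t ∈ Ioo t0 t1, HasDerivAt (fun t => Wt t x) (Wtt t x) t)
    (hb : ∀ t ∈ Ioo t0 t1, ∃ s ∈ 𝓝 t, s ⊆ Ioo t0 t1 ∧ ∃ c C : ℝ, 0 < c ∧ ∀ u ∈ s, ∀ x,
      c * S2 x - C ≤ W u x ∧ |Wt u x| ≤ C * (1 + S2 x) ∧ |Wtt u x| ≤ C * (1 + S2 x) ^ 2)
    (hs : ∀ t ∈ Ioo t0 t1, (∫ x, Real.exp (-W t x)) * (∫ x, Wt t x ^ 2 * Real.exp (-W t x)) -
      (∫ x, Wt t x * Real.exp (-W t x)) ^ 2 ≤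
      (∫ x, Real.exp (-W t x)) * ∫ x, Wtt t x * Real.exp (-W t x)) :
    ConcaveOn ℝ (Ioo t0 t1) (fun t => Real.log (∫ x, Real.exp (-W t x))) := by
  -- integrability and derivatives
  have key : ∀ t ∈ Ioo t0 t1,
      Integrable (fun x => Real.exp (-W t x)) ∧
      Integrable (fun x => Wt t x * Real.exp (-W t x)) ∧
      Integrable (fun x => Wt t x ^ 2 * Real.exp (-W t x)) ∧
      Integrable (fun x => Wtt t x * Real.exp (-W t x)) ∧
      HasDerivAt (fun t => ∫ x, Real.exp (-W t x)) (-∫ x, Wt t x * Real.exp (-W t x)) t ∧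
      HasDerivAt (fun t => ∫ x, Wt t x * Real.exp (-W t x))
        ((∫ x, Wtt t x * Real.exp (-W t x)) - ∫ x, Wt t x ^ 2 * Real.exp (-W t x)) t := by
    intro t ht
    obtain ⟨s, hs, hsI, c, C, hc, hC⟩ := hb t ht
    have hts : t ∈ s := mem_of_mem_nhds hs
    have hC0 : 0 ≤ C := by
      have h := (hC t hts 0).2.1
      have h0 : S2 (0 : Fin n → ℝ) = 0 := by simp [S2]
      rw [h0] at h
      have := abs_nonneg (Wt t 0)
      linarith
    have hexp : ∀ u ∈ s, ∀ x, Real.exp (-W u x) ≤ Real.exp C * Real.exp (-(c * S2 x)) := by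
      intro u hu x
      rw [← Real.exp_add]
      apply Real.exp_le_exp.mpr
      linarith [(hC u hu x).1]
    -- the dominating function
    set D : (Fin n → ℝ) → ℝ := fun x =>
      (1 + C + C ^ 2) * Real.exp C * ((1 + S2 x) ^ 2 * Real.exp (-(c * S2 x))) with hD
    have hDint : Integrable D := (integrable_poly_gauss hc).const_mul _
    have hone : ∀ x : Fin n → ℝ, 1 ≤ 1 + S2 x := fun x => by linarith [S2_nonneg x]
    have b0 : ∀ u ∈ s, ∀ x, ‖Real.exp (-W u x)‖ ≤ D x := by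
      intro u hu x
      rw [Real.norm_of_nonneg (Real.exp_pos _).le]
      refine (hexp u hu x).trans ?_
      have h1 : 1 ≤ (1 + S2 x) ^ 2 := one_le_pow₀ (hone x)
      have h2 : 1 ≤ 1 + C + C ^ 2 := by nlinarith
      calc Real.exp C * Real.exp (-(c * S2 x))
          = 1 * Real.exp C * (1 * Real.exp (-(c * S2 x))) := by ring
        _ ≤ (1 + C + C ^ 2) * Real.exp C * ((1 + S2 x) ^ 2 * Real.exp (-(c * S2 x))) := by
          gcongr
    have b1 : ∀ u ∈ s, ∀ x, ‖Wt u x * Real.exp (-W u x)‖ ≤ D x := by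
      intro u hu x
      rw [norm_mul, Real.norm_of_nonneg (Real.exp_pos _).le, Real.norm_eq_abs]
      have h1 : |Wt u x| ≤ (1 + C + C ^ 2) * (1 + S2 x) ^ 2 := by
        refine (hC u hu x).2.1.trans ?_
        have h3 : (1 + S2 x) ≤ (1 + S2 x) ^ 2 := by nlinarith [hone x]
        have h4 : C ≤ 1 + C + C ^ 2 := by nlinarith
        have h5 := hone x
        have h6 : C * (1 + S2 x) ≤ (1 + C + C ^ 2) * (1 + S2 x) ^ 2 := by gcongr
        exact h6
      calc |Wt u x| * Real.exp (-W u x)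
          ≤ ((1 + C + C ^ 2) * (1 + S2 x) ^ 2) * (Real.exp C * Real.exp (-(c * S2 x))) := by
            have := hexp u hu x
            gcongr
        _ = D x := by rw [hD]; ring
    have b2 : ∀ u ∈ s, ∀ x, ‖Wt u x ^ 2 * Real.exp (-W u x)‖ ≤ D x := by
      intro u hu x
      rw [norm_mul, Real.norm_of_nonneg (Real.exp_pos _).le, Real.norm_eq_abs, abs_pow]
      have h1 : |Wt u x| ^ 2 ≤ (1 + C + C ^ 2) * (1 + S2 x) ^ 2 := by
        have h5 := hone x
        calc |Wt u x| ^ 2 ≤ (C * (1 + S2 x)) ^ 2 := by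
              gcongr
              exact (hC u hu x).2.1
          _ = C ^ 2 * (1 + S2 x) ^ 2 := by ring
          _ ≤ (1 + C + C ^ 2) * (1 + S2 x) ^ 2 := by
              gcongr
              linarith
      calc |Wt u x| ^ 2 * Real.exp (-W u x)
          ≤ ((1 + C + C ^ 2) * (1 + S2 x) ^ 2) * (Real.exp C * Real.exp (-(c * S2 x))) := by
            have := hexp u hu x
            gcongr
        _ = D x := by rw [hD]; ring
    have b3 : ∀ u ∈ s, ∀ x, ‖Wtt u x * Real.exp (-W u x)‖ ≤ D x := by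
      intro u hu x
      rw [norm_mul, Real.norm_of_nonneg (Real.exp_pos _).le, Real.norm_eq_abs]
      have h1 : |Wtt u x| ≤ (1 + C + C ^ 2) * (1 + S2 x) ^ 2 := by
        refine (hC u hu x).2.2.trans ?_
        have h4 : C ≤ 1 + C + C ^ 2 := by nlinarith
        gcongr
      calc |Wtt u x| * Real.exp (-W u x)
          ≤ ((1 + C + C ^ 2) * (1 + S2 x) ^ 2) * (Real.exp C * Real.exp (-(c * S2 x))) := by
            have := hexp u hu x
            gcongr
        _ = D x := by rw [hD]; ring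
    have m0 : ∀ u ∈ s, AEStronglyMeasurable (fun x => Real.exp (-W u x)) volume := fun u hu =>
      (Real.continuous_exp.comp (hW u (hsI hu)).neg).aestronglyMeasurable
    have m1 : ∀ u ∈ s, AEStronglyMeasurable (fun x => Wt u x * Real.exp (-W u x)) volume :=
      fun u hu => ((hWt u (hsI hu)).mul
        (Real.continuous_exp.comp (hW u (hsI hu)).neg)).aestronglyMeasurable
    have m2 : ∀ u ∈ s, AEStronglyMeasurable (fun x => Wt u x ^ 2 * Real.exp (-W u x)) volume :=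
      fun u hu => (((hWt u (hsI hu)).pow 2).mul
        (Real.continuous_exp.comp (hW u (hsI hu)).neg)).aestronglyMeasurable
    have m3 : ∀ u ∈ s, AEStronglyMeasurable (fun x => Wtt u x * Real.exp (-W u x)) volume :=
      fun u hu => ((hWtt u (hsI hu)).mul
        (Real.continuous_exp.comp (hW u (hsI hu)).neg)).aestronglyMeasurable
    have i0 := hDint.mono' (m0 t hts) (Eventually.of_forall (b0 t hts))
    have i1 := hDint.mono' (m1 t hts) (Eventually.of_forall (b1 t hts))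
    have i2 := hDint.mono' (m2 t hts) (Eventually.of_forall (b2 t hts))
    have i3 := hDint.mono' (m3 t hts) (Eventually.of_forall (b3 t hts))
    refine ⟨i0, i1, i2, i3, ?_, ?_⟩
    · have h := (hasDerivAt_integral_of_dominated_loc_of_deriv_le (μ := volume) hs
        (F := fun u x => Real.exp (-W u x)) (F' := fun u x => -(Wt u x * Real.exp (-W u x)))
        (bound := D)
        (eventually_of_mem hs m0) i0 (m1 t hts).neg
        (Eventually.of_forall fun x u hu => by rw [norm_neg]; exact b1 u hu x) hDint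
        (Eventually.of_forall fun x u hu => by
          have := ((h1 x u (hsI hu)).neg).exp
          refine this.congr_deriv ?_
          simp only [Pi.neg_apply]
          ring)).2
      rwa [integral_neg] at h
    · have h := (hasDerivAt_integral_of_dominated_loc_of_deriv_le (μ := volume) hs
        (F := fun u x => Wt u x * Real.exp (-W u x))
        (F' := fun u x => Wtt u x * Real.exp (-W u x) - Wt u x ^ 2 * Real.exp (-W u x))
        (bound := fun x => D x + D x)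
        (eventually_of_mem hs m1) i1 ((m3 t hts).sub (m2 t hts))
        (Eventually.of_forall fun x u hu => (norm_sub_le _ _).trans
          (add_le_add (b3 u hu x) (b2 u hu x))) (hDint.add hDint)
        (Eventually.of_forall fun x u hu => by
          have := (h2 x u (hsI hu)).mul ((h1 x u (hsI hu)).neg).exp
          refine this.congr_deriv ?_
          simp only [Pi.neg_apply]
          ring)).2
      rwa [integral_sub i3 i2] at h
  have hpos : ∀ t ∈ Ioo t0 t1, 0 < ∫ x, Real.exp (-W t x) := fun t ht =>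
    integral_exp_pos (key t ht).1
  refine concaveOn_of_hasDerivWithinAt2_nonpos (convex_Ioo t0 t1)
    (f' := fun t => (-∫ x, Wt t x * Real.exp (-W t x)) / ∫ x, Real.exp (-W t x))
    (f'' := fun t => (-((∫ x, Wtt t x * Real.exp (-W t x)) -
        ∫ x, Wt t x ^ 2 * Real.exp (-W t x)) * (∫ x, Real.exp (-W t x)) -
        (-∫ x, Wt t x * Real.exp (-W t x)) * (-∫ x, Wt t x * Real.exp (-W t x))) /
          (∫ x, Real.exp (-W t x)) ^ 2)
    (fun t ht => ((key t ht).2.2.2.2.1.log (hpos t ht).ne').continuousAt.continuousWithinAt)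
    (fun t ht => ?_) (fun t ht => ?_) (fun t ht => ?_)
  · rw [interior_Ioo] at ht
    exact ((key t ht).2.2.2.2.1.log (hpos t ht).ne').hasDerivWithinAt
  · rw [interior_Ioo] at ht
    exact ((key t ht).2.2.2.2.2.neg.div (key t ht).2.2.2.2.1 (hpos t ht).ne').hasDerivWithinAt
  · rw [interior_Ioo] at ht
    apply div_nonpos_of_nonpos_of_nonneg _ (sq_nonneg _)
    have := hs t ht
    nlinarith

/-! ### the potential and its time derivatives -/

section potential

variable {d : ℕ} (o : Fin d → Fin n) (A : Fin n → ℝ → ℝ) (r β : Fin d → ℝ) (a0 α : ℝ)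
  (ψ : (Fin n → ℝ) × ℝ → ℝ)

noncomputable def W0 (t : ℝ) (x : Fin n → ℝ) : ℝ :=
  pot o A (a0 + α * t) (fun k => r k + β k * t) x + ψ (x, t)

noncomputable def W1 (t : ℝ) (x : Fin n → ℝ) : ℝ :=
  (∑ i, deriv (A i) ((x i / (a0 + α * t)) ^ 2) *
      (-(2 * α / (a0 + α * t)) * (x i / (a0 + α * t)) ^ 2)) +
    (∑ k, Real.exp (r k + β k * t) *
      ((β k - 2 * α / (a0 + α * t)) * (x (o k) / (a0 + α * t)) ^ 2)) / 2 +
    fderiv ℝ ψ (x, t) (0, 1)

noncomputable def W2 (t : ℝ) (x : Fin n → ℝ) : ℝ :=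
  (∑ i, (deriv (deriv (A i)) ((x i / (a0 + α * t)) ^ 2) *
      (-(2 * α / (a0 + α * t)) * (x i / (a0 + α * t)) ^ 2) ^ 2 +
      deriv (A i) ((x i / (a0 + α * t)) ^ 2) *
        (6 * α ^ 2 / (a0 + α * t) ^ 2 * (x i / (a0 + α * t)) ^ 2))) +
    (∑ k, Real.exp (r k + β k * t) *
      (((β k - 2 * α / (a0 + α * t)) ^ 2 + 2 * α ^ 2 / (a0 + α * t) ^ 2) *
        (x (o k) / (a0 + α * t)) ^ 2)) / 2 +
    fderiv ℝ (fderiv ℝ ψ) (x, t) (0, 1) (0, 1)

lemma hasDerivAt_lin (a0 α t : ℝ) : HasDerivAt (fun t : ℝ => a0 + α * t) α t := by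
  simpa using ((hasDerivAt_id t).const_mul α).const_add a0

lemma hasDerivAt_y (a0 α c t : ℝ) (ha : a0 + α * t ≠ 0) :
    HasDerivAt (fun t : ℝ => (c / (a0 + α * t)) ^ 2)
      (-(2 * α / (a0 + α * t)) * (c / (a0 + α * t)) ^ 2) t := by
  have h := ((hasDerivAt_const t c).div (hasDerivAt_lin a0 α t) ha).pow 2
  refine h.congr_deriv ?_
  simp only [Pi.div_apply]
  generalize a0 + α * t = a at *
  norm_num
  field_simp

lemma hasDerivAt_inv2 (a0 α t : ℝ) (ha : a0 + α * t ≠ 0) :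
    HasDerivAt (fun t : ℝ => 2 * α / (a0 + α * t))
      (-(2 * α ^ 2 / (a0 + α * t) ^ 2)) t := by
  have h := ((hasDerivAt_const t (2 * α)).div (hasDerivAt_lin a0 α t) ha)
  refine h.congr_deriv ?_
  field_simp
  ring

variable {A ψ}

lemma hasDerivAt_psi (hψ : Differentiable ℝ ψ) (x : Fin n → ℝ) (t : ℝ) :
    HasDerivAt (fun t => ψ (x, t)) (fderiv ℝ ψ (x, t) (0, 1)) t := by
  have h := (hψ (x, t)).hasFDerivAt
  have h2 : HasDerivAt (fun t : ℝ => (x, t)) ((0 : Fin n → ℝ), (1 : ℝ)) t :=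
    (hasDerivAt_const t x).prodMk (hasDerivAt_id t)
  exact h.comp_hasDerivAt t h2

lemma hasDerivAt_psi1 (hψ : ContDiff ℝ ∞ ψ) (x : Fin n → ℝ) (t : ℝ) :
    HasDerivAt (fun t => fderiv ℝ ψ (x, t) (0, 1))
      (fderiv ℝ (fderiv ℝ ψ) (x, t) (0, 1) (0, 1)) t := by
  have hd : Differentiable ℝ (fderiv ℝ ψ) :=
    (hψ.fderiv_right (m := ∞) (by simp)).differentiable (by simp)
  have h := (hd (x, t)).hasFDerivAt
  have h2 : HasDerivAt (fun t : ℝ => (x, t)) ((0 : Fin n → ℝ), (1 : ℝ)) t :=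
    (hasDerivAt_const t x).prodMk (hasDerivAt_id t)
  have h3 : HasDerivAt (fun t => fderiv ℝ ψ (x, t))
      (fderiv ℝ (fderiv ℝ ψ) (x, t) (0, 1)) t := h.comp_hasDerivAt t h2
  have h4 := h3.clm_apply (hasDerivAt_const t ((0 : Fin n → ℝ), (1 : ℝ)))
  simpa using h4

lemma hasDerivAt_W0 (hA : ∀ i, Adm (A i)) (hψ : ContDiff ℝ ∞ ψ) (x : Fin n → ℝ) (t : ℝ)
    (ha : a0 + α * t ≠ 0) :
    HasDerivAt (fun t => W0 o A r β a0 α ψ t x) (W1 o A r β a0 α ψ t x) t := by
  unfold W0 W1 pot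
  refine HasDerivAt.fun_add (HasDerivAt.fun_add ?_ ?_)
    (hasDerivAt_psi (hψ.differentiable (by simp)) x t)
  · refine HasDerivAt.fun_sum fun i _ => ?_
    have h1 : HasDerivAt (A i) (deriv (A i) ((x i / (a0 + α * t)) ^ 2))
        ((x i / (a0 + α * t)) ^ 2) :=
      (((hA i).smooth.differentiable (by simp)) _).hasDerivAt
    exact h1.comp t (hasDerivAt_y a0 α (x i) t ha)
  · refine HasDerivAt.div_const ?_ 2
    refine HasDerivAt.fun_sum fun k _ => ?_
    have h1 := ((hasDerivAt_lin (r k) (β k) t).exp).mul (hasDerivAt_y a0 α (x (o k)) t ha)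
    refine h1.congr_deriv ?_
    ring

lemma hasDerivAt_W1 (hA : ∀ i, Adm (A i)) (hψ : ContDiff ℝ ∞ ψ) (x : Fin n → ℝ) (t : ℝ)
    (ha : a0 + α * t ≠ 0) :
    HasDerivAt (fun t => W1 o A r β a0 α ψ t x) (W2 o A r β a0 α ψ t x) t := by
  unfold W1 W2
  refine HasDerivAt.fun_add (HasDerivAt.fun_add ?_ ?_) (hasDerivAt_psi1 hψ x t)
  · refine HasDerivAt.fun_sum fun i _ => ?_
    have hd : Differentiable ℝ (deriv (A i)) :=
      ((contDiff_infty_iff_deriv.1 (hA i).smooth).2).differentiable (by simp)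
    have h1 : HasDerivAt (deriv (A i)) (deriv (deriv (A i)) ((x i / (a0 + α * t)) ^ 2))
        ((x i / (a0 + α * t)) ^ 2) := (hd _).hasDerivAt
    have h2 := h1.comp t (hasDerivAt_y a0 α (x i) t ha)
    have h3 := h2.mul ((hasDerivAt_inv2 a0 α t ha).neg.mul (hasDerivAt_y a0 α (x i) t ha))
    refine h3.congr_deriv ?_
    simp only [Function.comp, Pi.neg_apply, Pi.mul_apply]
    clear h3 h2 h1
    generalize a0 + α * t = a at *
    generalize deriv (deriv (A i)) ((x i / a) ^ 2) = u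
    generalize deriv (A i) ((x i / a) ^ 2) = v
    field_simp
    ring
  · refine HasDerivAt.div_const ?_ 2
    refine HasDerivAt.fun_sum fun k _ => ?_
    have h2 := ((hasDerivAt_const t (β k)).sub (hasDerivAt_inv2 a0 α t ha)).mul
      (hasDerivAt_y a0 α (x (o k)) t ha)
    have h1 := ((hasDerivAt_lin (r k) (β k) t).exp).mul h2
    refine h1.congr_deriv ?_
    simp only [Pi.sub_apply, Pi.mul_apply]
    ring

lemma continuous_W0 (hA : ∀ i, Adm (A i)) (hψ : ContDiff ℝ ∞ ψ) (t : ℝ) :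
    Continuous (W0 o A r β a0 α ψ t) := by
  have h1 : ∀ i, Continuous (A i) := fun i => (hA i).smooth.continuous
  have h2 : Continuous ψ := hψ.continuous
  unfold W0 pot
  fun_prop

lemma continuous_W1 (hA : ∀ i, Adm (A i)) (hψ : ContDiff ℝ ∞ ψ) (t : ℝ) :
    Continuous (W1 o A r β a0 α ψ t) := by
  have h1 : ∀ i, Continuous (deriv (A i)) := fun i =>
    ((contDiff_infty_iff_deriv.1 (hA i).smooth).2).continuous
  have h2 : Continuous (fderiv ℝ ψ) := hψ.continuous_fderiv (by simp)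
  unfold W1
  fun_prop

lemma continuous_W2 (hA : ∀ i, Adm (A i)) (hψ : ContDiff ℝ ∞ ψ) (t : ℝ) :
    Continuous (W2 o A r β a0 α ψ t) := by
  have h0 : ∀ i, ContDiff ℝ ∞ (deriv (A i)) := fun i =>
    ((contDiff_infty_iff_deriv.1 (hA i).smooth).2)
  have h1 : ∀ i, Continuous (deriv (A i)) := fun i => (h0 i).continuous
  have h3 : ∀ i, Continuous (deriv (deriv (A i))) := fun i =>
    ((contDiff_infty_iff_deriv.1 (h0 i)).2).continuous
  have h2 : Continuous (fderiv ℝ (fderiv ℝ ψ)) :=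
    (hψ.fderiv_right (m := ∞) (by simp)).continuous_fderiv (by simp)
  unfold W2
  fun_prop

lemma abs_mul_le' {a b c e : ℝ} (h1 : |a| ≤ c) (h2 : |b| ≤ e) : |a * b| ≤ c * e := by
  rw [abs_mul]
  exact mul_le_mul h1 h2 (abs_nonneg _) ((abs_nonneg _).trans h1)

lemma bound_aux (hA : ∀ i, Adm (A i)) (hψ : ContDiff ℝ ∞ ψ)
    (hev : ∀ x t, ψ (-x, t) = ψ (x, t)) {t0 t1 : ℝ} (hcv : ConvexOn ℝ (univ ×ˢ Ioo t0 t1) ψ)
    (ha : ∀ t ∈ Ioo t0 t1, 0 < a0 + α * t)
    (hb1 : ∃ C : ℝ, ∀ z, ‖fderiv ℝ ψ z‖ ≤ C) (hb2 : ∃ C : ℝ, ∀ z, ‖fderiv ℝ (fderiv ℝ ψ) z‖ ≤ C)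
    (t : ℝ) (ht : t ∈ Ioo t0 t1) :
    ∃ s ∈ 𝓝 t, s ⊆ Ioo t0 t1 ∧ ∃ c C : ℝ, 0 < c ∧ ∀ u ∈ s, ∀ x,
      c * S2 x - C ≤ W0 o A r β a0 α ψ u x ∧ |W1 o A r β a0 α ψ u x| ≤ C * (1 + S2 x) ∧
        |W2 o A r β a0 α ψ u x| ≤ C * (1 + S2 x) ^ 2 := by
  obtain ⟨u, htu, hut⟩ := exists_between ht.1
  obtain ⟨v, htv, hvt⟩ := exists_between ht.2
  have hsub : Icc u v ⊆ Ioo t0 t1 := fun τ hτ => ⟨htu.trans_le hτ.1, hτ.2.trans_lt hvt⟩
  refine ⟨Icc u v, Icc_mem_nhds hut htv, hsub, ?_⟩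
  -- bounds of continuous functions on `Icc u v`
  have hcomp : ∀ g : ℝ → ℝ, ContinuousOn g (Icc u v) →
      ∀ᶠ B in (atTop : Filter ℝ), ∀ τ ∈ Icc u v, |g τ| ≤ B := by
    intro g hg
    obtain ⟨C, hC⟩ := isCompact_Icc.exists_bound_of_continuousOn hg
    filter_upwards [eventually_ge_atTop C] with B hB τ hτ
    exact (hC τ hτ).trans hB
  have hlin : ContinuousOn (fun τ => a0 + α * τ) (Icc u v) := by fun_prop
  have e1 := hcomp (fun τ => (a0 + α * τ)⁻¹)
    (hlin.inv₀ fun τ hτ => (ha τ (hsub hτ)).ne')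
  have e2 := hcomp _ hlin
  have e3 : ∀ᶠ B in (atTop : Filter ℝ), ∀ k, ∀ τ ∈ Icc u v, |Real.exp (r k + β k * τ)| ≤ B :=
    eventually_all.2 fun k => hcomp _ (by fun_prop)
  have e4 : ∀ᶠ B in (atTop : Filter ℝ), ∀ k, |β k| ≤ B :=
    eventually_all.2 fun k => eventually_ge_atTop _
  have e5 : ∀ᶠ B in (atTop : Filter ℝ), |α| ≤ B := eventually_ge_atTop _
  have e6 : ∀ᶠ B in (atTop : Filter ℝ), ∀ i, ∀ y, 0 ≤ y → |deriv (A i) y| ≤ B := by
    refine eventually_all.2 fun i => ?_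
    obtain ⟨C, hC⟩ := (hA i).up
    obtain ⟨δ, hδ, hδ'⟩ := (hA i).lo
    filter_upwards [eventually_ge_atTop C] with B hB y hy
    rw [abs_of_nonneg (hδ.le.trans (hδ' y hy))]
    exact (hC y hy).trans hB
  have e7 : ∀ᶠ B in (atTop : Filter ℝ), ∀ i, ∀ y, 0 ≤ y → |deriv (deriv (A i)) y| ≤ B := by
    refine eventually_all.2 fun i => ?_
    obtain ⟨C, hC⟩ := (hA i).up2
    filter_upwards [eventually_ge_atTop C] with B hB y hy
    rw [abs_of_nonneg ((hA i).lo2 y hy)]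
    exact (hC y hy).trans hB
  have e8 : ∀ᶠ B in (atTop : Filter ℝ), ∀ i, |A i 0| ≤ B :=
    eventually_all.2 fun i => eventually_ge_atTop _
  have e9 := hcomp (fun τ => ψ (0, τ)) (by
    have := hψ.continuous
    fun_prop)
  have e10 : ∀ᶠ B in (atTop : Filter ℝ), ∀ z, |fderiv ℝ ψ z (0, 1)| ≤ B := by
    obtain ⟨C, hC⟩ := hb1
    filter_upwards [eventually_ge_atTop C] with B hB z
    have h1 := (fderiv ℝ ψ z).le_opNorm ((0 : Fin n → ℝ), (1 : ℝ))
    have h2 : ‖((0 : Fin n → ℝ), (1 : ℝ))‖ = 1 := by simp [Prod.norm_def]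
    rw [h2, mul_one] at h1
    exact (h1.trans (hC z)).trans hB
  have e11 : ∀ᶠ B in (atTop : Filter ℝ), ∀ z, |fderiv ℝ (fderiv ℝ ψ) z (0, 1) (0, 1)| ≤ B := by
    obtain ⟨C, hC⟩ := hb2
    filter_upwards [eventually_ge_atTop C] with B hB z
    have h1 := (fderiv ℝ (fderiv ℝ ψ) z).le_opNorm₂ ((0 : Fin n → ℝ), (1 : ℝ))
      ((0 : Fin n → ℝ), (1 : ℝ))
    have h2 : ‖((0 : Fin n → ℝ), (1 : ℝ))‖ = 1 := by simp [Prod.norm_def]
    rw [h2, mul_one, mul_one] at h1
    exact (h1.trans (hC z)).trans hB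
  obtain ⟨B, hB1, b1, b2, b3, b4, b5, b6, b7, b8, b9, b10, b11⟩ :=
    ((eventually_ge_atTop (1 : ℝ)).and (e1.and (e2.and (e3.and (e4.and (e5.and (e6.and (e7.and
      (e8.and (e9.and (e10.and e11)))))))))) ).exists
  -- a common lower bound for the derivatives
  have hδ : ∃ δ : ℝ, 0 < δ ∧ ∀ i, ∀ y, 0 ≤ y → δ ≤ deriv (A i) y := by
    have : ∀ᶠ δ in 𝓝[>] (0 : ℝ), ∀ i, ∀ y, 0 ≤ y → δ ≤ deriv (A i) y := by
      refine eventually_all.2 fun i => ?_
      obtain ⟨δ, hδ, hδ'⟩ := (hA i).lo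
      filter_upwards [Ioo_mem_nhdsGT hδ] with ε hε y hy
      exact hε.2.le.trans (hδ' y hy)
    obtain ⟨δ, hδ, h⟩ := (this.and self_mem_nhdsWithin).exists
    exact ⟨δ, h, hδ⟩
  obtain ⟨δ, hδ0, hδ⟩ := hδ
  have hlow : ∀ i y, 0 ≤ y → A i 0 + δ * y ≤ A i y := by
    intro i y hy
    have hd : Differentiable ℝ (A i) := (hA i).smooth.differentiable (by simp)
    have h := (convex_Ici (0 : ℝ)).mul_sub_le_image_sub_of_le_deriv (f := A i) (C := δ)
      hd.continuous.continuousOn hd.differentiableOn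
      (fun x hx => hδ i x (interior_subset hx)) 0 self_mem_Ici y hy hy
    linarith
  have hB0 : 0 ≤ B := zero_le_one.trans hB1
  refine ⟨δ / B ^ 2, (10 * n + 11 * d + 1) * B ^ 9, by positivity, fun τ hτ x => ?_⟩
  have haτ := ha τ (hsub hτ)
  set a := a0 + α * τ with ha_def
  have hS := S2_nonneg x
  have hinv : a⁻¹ ≤ B := (le_abs_self _).trans (b1 τ hτ)
  have hinv0 : 0 < a⁻¹ := inv_pos.2 haτ
  have haB : a ≤ B := (le_abs_self _).trans (b2 τ hτ)
  have hy : ∀ i, |(x i / a) ^ 2| ≤ B ^ 2 * S2 x := by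
    intro i
    rw [abs_of_nonneg (sq_nonneg _), div_pow, div_eq_mul_inv, mul_comm, ← inv_pow]
    have := le_S2 x i
    gcongr
  have hinvB : |a⁻¹| ≤ B := b1 τ hτ
  have hbig : ∀ k : ℕ, k ≤ 9 → B ^ k ≤ B ^ 9 := fun k hk => pow_le_pow_right₀ hB1 hk
  have h2a : |2 * α / a| ≤ 2 * B ^ 2 := by
    have h : |2 * α * a⁻¹| ≤ (2 * B) * B := abs_mul_le' (by
      rw [abs_mul, abs_two]
      linarith) hinvB
    rw [div_eq_mul_inv]
    linarith
  have h2a' : |-(2 * α / a)| ≤ 2 * B ^ 2 := by rwa [abs_neg]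
  have hbk : ∀ k, |β k - 2 * α / a| ≤ 3 * B ^ 2 := by
    intro k
    have h1 := abs_sub (β k) (2 * α / a)
    have h2 := b4 k
    have h3 : B ≤ B ^ 2 := by nlinarith
    linarith
  refine ⟨?_, ?_, ?_⟩
  · -- lower bound of the potential
    have h1 : ∑ i, (-B + δ / B ^ 2 * x i ^ 2) ≤ ∑ i, A i ((x i / a) ^ 2) := by
      refine Finset.sum_le_sum fun i _ => ?_
      have h2 := hlow i ((x i / a) ^ 2) (sq_nonneg _)
      have h3 := (abs_le.1 (b8 i)).1
      have h4 : δ / B ^ 2 * x i ^ 2 ≤ δ * (x i / a) ^ 2 := by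
        have h6 : x i ^ 2 / B ^ 2 ≤ x i ^ 2 / a ^ 2 := by gcongr
        calc δ / B ^ 2 * x i ^ 2 = δ * (x i ^ 2 / B ^ 2) := by ring
          _ ≤ δ * (x i ^ 2 / a ^ 2) := by gcongr
          _ = δ * (x i / a) ^ 2 := by rw [div_pow]
      linarith
    have h2 : ∑ i, (-B + δ / B ^ 2 * x i ^ 2) = -(n * B) + δ / B ^ 2 * S2 x := by
      rw [Finset.sum_add_distrib, ← Finset.mul_sum]
      simp [S2]
    have h3 : 0 ≤ (∑ k, Real.exp (r k + β k * τ) * (x (o k) / a) ^ 2) / 2 := by positivity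
    have h4 : -B ≤ ψ (x, τ) := by
      have h5 : ψ (0, τ) ≤ ψ (x, τ) := by
        have m1 : ((x, τ) : (Fin n → ℝ) × ℝ) ∈ univ ×ˢ Ioo t0 t1 := ⟨trivial, hsub hτ⟩
        have m2 : ((-x, τ) : (Fin n → ℝ) × ℝ) ∈ univ ×ˢ Ioo t0 t1 := ⟨trivial, hsub hτ⟩
        have h6 := hcv.2 m1 m2
          (by norm_num : (0 : ℝ) ≤ 1 / 2) (by norm_num : (0 : ℝ) ≤ 1 / 2) (by norm_num)
        rw [hev x τ] at h6
        have e : (1 / 2 : ℝ) • (x, τ) + (1 / 2 : ℝ) • (-x, τ) = (0, τ) := by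
          ext
          · simp
          · simp
            ring
        rw [e] at h6
        simp only [smul_eq_mul] at h6
        linarith
      have h7 := (abs_le.1 (b9 τ hτ)).1
      linarith
    have h5 : (n + 1) * B ≤ (10 * n + 11 * d + 1) * B ^ 9 := by
      have h6 := hbig 1 (by norm_num)
      rw [pow_one] at h6
      have hd0 : (0 : ℝ) ≤ d := Nat.cast_nonneg d
      have hn0 : (0 : ℝ) ≤ n := Nat.cast_nonneg n
      have h7 : (n + 1 : ℝ) ≤ 10 * n + 11 * d + 1 := by linarith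
      exact mul_le_mul h7 h6 hB0 (by positivity)
    unfold W0 pot
    rw [← ha_def]
    linarith
  · unfold W1
    rw [← ha_def]
    have h1 : |∑ i, deriv (A i) ((x i / a) ^ 2) * (-(2 * α / a) * (x i / a) ^ 2)| ≤
        n * (2 * B ^ 5 * S2 x) := by
      refine (Finset.abs_sum_le_sum_abs _ _).trans ?_
      refine (Finset.sum_le_card_nsmul _ _ (2 * B ^ 5 * S2 x) fun i _ => ?_).trans ?_
      · have h := abs_mul_le' (b6 i _ (sq_nonneg (x i / a)))
          (abs_mul_le' h2a' (hy i))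
        refine h.trans (le_of_eq ?_)
        ring
      · simp
    have h2 : |∑ k, Real.exp (r k + β k * τ) * ((β k - 2 * α / a) * (x (o k) / a) ^ 2)| ≤
        d * (3 * B ^ 5 * S2 x) := by
      refine (Finset.abs_sum_le_sum_abs _ _).trans ?_
      refine (Finset.sum_le_card_nsmul _ _ (3 * B ^ 5 * S2 x) fun k _ => ?_).trans ?_
      · have h := abs_mul_le' (b3 k τ hτ) (abs_mul_le' (hbk k) (hy (o k)))
        refine h.trans (le_of_eq ?_)
        ring
      · simp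
    have h3 := b10 (x, τ)
    refine (abs_add_three _ _ _).trans ?_
    rw [abs_div, abs_two]
    have h5 := hbig 5 (by norm_num)
    have h6 := hbig 1 (by norm_num)
    rw [pow_one] at h6
    have hd0 : (0 : ℝ) ≤ d := Nat.cast_nonneg d
    have hn0 : (0 : ℝ) ≤ n := Nat.cast_nonneg n
    have h7 : n * (2 * B ^ 5 * S2 x) ≤ n * (2 * B ^ 9 * S2 x) := by gcongr
    have h8 : d * (3 * B ^ 5 * S2 x) ≤ d * (3 * B ^ 9 * S2 x) := by gcongr
    have h9 : 0 ≤ n * B ^ 9 := by positivity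
    have h10 : 0 ≤ d * B ^ 9 := by positivity
    have h11 : 0 ≤ B ^ 9 := by positivity
    nlinarith [mul_nonneg h9 hS, mul_nonneg h10 hS, mul_nonneg h11 hS]
  · unfold W2
    rw [← ha_def]
    have hS1 : S2 x ≤ (1 + S2 x) ^ 2 := by nlinarith
    have hS2 : S2 x ^ 2 ≤ (1 + S2 x) ^ 2 := by nlinarith
    have hS0 : 1 ≤ (1 + S2 x) ^ 2 := by nlinarith
    set T := (1 + S2 x) ^ 2 with hT
    have hT0 : 0 ≤ T := by positivity
    have h6a : |6 * α ^ 2 / a ^ 2| ≤ 6 * B ^ 4 := by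
      have h : |6 * (α * a⁻¹) * (α * a⁻¹)| ≤ (6 * (B * B)) * (B * B) :=
        abs_mul_le' (by
          rw [abs_mul, abs_of_nonneg (by norm_num : (0 : ℝ) ≤ 6)]
          have := abs_mul_le' b5 hinvB
          linarith) (abs_mul_le' b5 hinvB)
      have e : 6 * α ^ 2 / a ^ 2 = 6 * (α * a⁻¹) * (α * a⁻¹) := by
        rw [div_eq_mul_inv, ← inv_pow]
        ring
      rw [e]
      refine h.trans (le_of_eq (by ring))
    have hbk2 : ∀ k, |(β k - 2 * α / a) ^ 2 + 2 * α ^ 2 / a ^ 2| ≤ 11 * B ^ 4 := by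
      intro k
      have h1 : |(β k - 2 * α / a) ^ 2| ≤ 9 * B ^ 4 := by
        rw [pow_two]
        refine (abs_mul_le' (hbk k) (hbk k)).trans (le_of_eq (by ring))
      have h2 : |2 * α ^ 2 / a ^ 2| ≤ 2 * B ^ 4 := by
        have e : 2 * α ^ 2 / a ^ 2 = (6 * α ^ 2 / a ^ 2) * (1 / 3) := by ring
        rw [e, abs_mul, abs_of_nonneg (by norm_num : (0 : ℝ) ≤ 1 / 3)]
        linarith
      refine (abs_add_le _ _).trans ?_
      linarith
    have h1 : |∑ i, (deriv (deriv (A i)) ((x i / a) ^ 2) * (-(2 * α / a) * (x i / a) ^ 2) ^ 2 +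
        deriv (A i) ((x i / a) ^ 2) * (6 * α ^ 2 / a ^ 2 * (x i / a) ^ 2))| ≤
        n * (10 * B ^ 9 * T) := by
      refine (Finset.abs_sum_le_sum_abs _ _).trans ?_
      refine (Finset.sum_le_card_nsmul _ _ (10 * B ^ 9 * T) fun i _ => ?_).trans ?_
      · have g1 := abs_mul_le' h2a' (hy i)
        have g2 : |(-(2 * α / a) * (x i / a) ^ 2) ^ 2| ≤ 4 * B ^ 8 * S2 x ^ 2 := by
          rw [pow_two]
          refine (abs_mul_le' g1 g1).trans (le_of_eq (by ring))
        have g3 := abs_mul_le' (b7 i _ (sq_nonneg (x i / a))) g2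
        have g4 := abs_mul_le' (b6 i _ (sq_nonneg (x i / a))) (abs_mul_le' h6a (hy i))
        have h7 := hbig 7 (by norm_num)
        have g5 : B * (4 * B ^ 8 * S2 x ^ 2) ≤ 4 * B ^ 9 * T := by
          calc B * (4 * B ^ 8 * S2 x ^ 2) = 4 * B ^ 9 * S2 x ^ 2 := by ring
            _ ≤ 4 * B ^ 9 * T := by gcongr
        have g6 : B * (6 * B ^ 4 * (B ^ 2 * S2 x)) ≤ 6 * B ^ 9 * T := by
          calc B * (6 * B ^ 4 * (B ^ 2 * S2 x)) = 6 * B ^ 7 * S2 x := by ring
            _ ≤ 6 * B ^ 9 * T := by gcongr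
        refine (abs_add_le _ _).trans ?_
        linarith
      · simp
    have h2 : |∑ k, Real.exp (r k + β k * τ) *
        (((β k - 2 * α / a) ^ 2 + 2 * α ^ 2 / a ^ 2) * (x (o k) / a) ^ 2)| ≤
        d * (11 * B ^ 9 * T) := by
      refine (Finset.abs_sum_le_sum_abs _ _).trans ?_
      refine (Finset.sum_le_card_nsmul _ _ (11 * B ^ 9 * T) fun k _ => ?_).trans ?_
      · have h := abs_mul_le' (b3 k τ hτ) (abs_mul_le' (hbk2 k) (hy (o k)))
        have h7 := hbig 7 (by norm_num)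
        have g6 : B * (11 * B ^ 4 * (B ^ 2 * S2 x)) ≤ 11 * B ^ 9 * T := by
          calc B * (11 * B ^ 4 * (B ^ 2 * S2 x)) = 11 * B ^ 7 * S2 x := by ring
            _ ≤ 11 * B ^ 9 * T := by gcongr
        exact h.trans g6
      · simp
    have h3 := b11 (x, τ)
    refine (abs_add_three _ _ _).trans ?_
    rw [abs_div, abs_two]
    have h6 := hbig 1 (by norm_num)
    rw [pow_one] at h6
    have h9 : 0 ≤ (n : ℝ) * B ^ 9 * T := by positivity
    have h10 : 0 ≤ (d : ℝ) * B ^ 9 * T := by positivity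
    have h11 : B ^ 9 * 1 ≤ B ^ 9 * T := by gcongr
    nlinarith

/-! ### transfer of the static inequality -/

lemma sum_sig (o : Fin d → Fin n) (s : Fin d → ℝ) (g : Fin n → ℝ) :
    ∑ i, sig o s i * g i = ∑ k, s k * g (o k) := by
  unfold sig
  simp_rw [Finset.sum_mul]
  rw [Finset.sum_comm]
  refine Finset.sum_congr rfl fun k _ => ?_
  simp

lemma deriv_scale {f : ℝ → ℝ} (hf : Differentiable ℝ f) (c s : ℝ) :
    deriv (fun s => f (s / c)) s = deriv f (s / c) / c := by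
  have h1 : HasDerivAt f (deriv f (s / c)) (s / c) := (hf _).hasDerivAt
  have h2 : HasDerivAt (fun s : ℝ => s / c) (1 / c) s := (hasDerivAt_id s).div_const c
  have h3 := h1.comp s h2
  have h4 := h3.deriv
  simp only [Function.comp_def] at h4
  rw [h4]
  ring

lemma deriv2_scale {f : ℝ → ℝ} (hf : ContDiff ℝ ∞ f) (c s : ℝ) :
    deriv (deriv (fun s => f (s / c))) s = deriv (deriv f) (s / c) / c ^ 2 := by
  have h0 : deriv (fun s => f (s / c)) = fun s => deriv f (s / c) / c := by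
    ext s
    exact deriv_scale (hf.differentiable (by simp)) c s
  have h1 : Differentiable ℝ (deriv f) :=
    ((contDiff_infty_iff_deriv.1 hf).2).differentiable (by simp)
  rw [h0]
  rw [deriv_div_const, deriv_scale h1]
  ring

lemma adm_scale {f : ℝ → ℝ} (hf : Adm f) {c : ℝ} (hc : 0 < c) : Adm (fun s => f (s / c)) where
  smooth := hf.smooth.comp (contDiff_id.div_const c)
  lo := by
    obtain ⟨δ, hδ, h⟩ := hf.lo
    refine ⟨δ / c, by positivity, fun s hs => ?_⟩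
    rw [deriv_scale (hf.smooth.differentiable (by simp))]
    have := h (s / c) (by positivity)
    gcongr
  up := by
    obtain ⟨C, h⟩ := hf.up
    refine ⟨C / c, fun s hs => ?_⟩
    rw [deriv_scale (hf.smooth.differentiable (by simp))]
    have := h (s / c) (by positivity)
    gcongr
  lo2 := by
    intro s hs
    rw [deriv2_scale hf.smooth]
    have := hf.lo2 (s / c) (by positivity)
    positivity
  up2 := by
    obtain ⟨C, h⟩ := hf.up2
    refine ⟨C / c ^ 2, fun s hs => ?_⟩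
    rw [deriv2_scale hf.smooth]
    have := h (s / c) (by positivity)
    gcongr

lemma psi_eq (t : ℝ) (x : Fin n → ℝ) :
    Psi (fun i s => A i (s / (a0 + α * t) ^ 2))
      (sig o fun k => Real.exp (r k + β k * t) / (a0 + α * t) ^ 2) (fun x => ψ (x, t)) x =
      W0 o A r β a0 α ψ t x := by
  unfold Psi Uf W0 pot
  congr 1
  rw [Finset.sum_add_distrib]
  congr 1
  · refine Finset.sum_congr rfl fun i _ => ?_
    rw [div_pow]
  · rw [← Finset.sum_div, sum_sig]
    congr 1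
    refine Finset.sum_congr rfl fun k _ => ?_
    rw [div_pow]
    ring

lemma hf_eq (hA : ∀ i, Adm (A i)) (t : ℝ) (x : Fin n → ℝ) :
    hf o (fun i s => A i (s / (a0 + α * t) ^ 2))
      (fun k => Real.exp (r k + β k * t) / (a0 + α * t) ^ 2) β (α / (a0 + α * t))
      (fun x => fderiv ℝ ψ (x, t) (0, 1)) x = W1 o A r β a0 α ψ t x := by
  unfold hf bf W1
  have hd : ∀ i, Differentiable ℝ (A i) := fun i => (hA i).smooth.differentiable (by simp)
  simp_rw [fun i => deriv_scale (hd i)]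
  generalize a0 + α * t = a at *
  have h1 : ∑ i, x i ^ 2 * (2 * (deriv (A i) (x i ^ 2 / a ^ 2) / a ^ 2) +
      sig o (fun k => Real.exp (r k + β k * t) / a ^ 2) i) =
      (∑ i, 2 * deriv (A i) ((x i / a) ^ 2) * (x i / a) ^ 2) +
        ∑ k, Real.exp (r k + β k * t) / a ^ 2 * x (o k) ^ 2 := by
    rw [← sum_sig o (fun k => Real.exp (r k + β k * t) / a ^ 2) (fun i => x i ^ 2),
      ← Finset.sum_add_distrib]
    refine Finset.sum_congr rfl fun i _ => ?_
    rw [div_pow]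
    ring
  rw [h1]
  have h2 : ∑ i, deriv (A i) ((x i / a) ^ 2) * (-(2 * α / a) * (x i / a) ^ 2) =
      -(α / a) * ∑ i, 2 * deriv (A i) ((x i / a) ^ 2) * (x i / a) ^ 2 := by
    rw [Finset.mul_sum]
    refine Finset.sum_congr rfl fun i _ => ?_
    ring
  have h3 : (∑ k, Real.exp (r k + β k * t) * ((β k - 2 * α / a) * (x (o k) / a) ^ 2)) =
      (∑ k, Real.exp (r k + β k * t) / a ^ 2 * β k * x (o k) ^ 2) -
        2 * (α / a) * ∑ k, Real.exp (r k + β k * t) / a ^ 2 * x (o k) ^ 2 := by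
    rw [Finset.mul_sum, ← Finset.sum_sub_distrib]
    refine Finset.sum_congr rfl fun k _ => ?_
    rw [div_pow]
    ring
  rw [h2, h3]
  ring

lemma ff_eq (hA : ∀ i, Adm (A i)) (t : ℝ) (x : Fin n → ℝ) :
    ff o (fun i s => A i (s / (a0 + α * t) ^ 2))
      (fun k => Real.exp (r k + β k * t) / (a0 + α * t) ^ 2) β (α / (a0 + α * t))
      (fun x => fderiv ℝ (fderiv ℝ ψ) (x, t) (0, 1) (0, 1)) x = W2 o A r β a0 α ψ t x := by
  unfold ff W2
  have hd : ∀ i, Differentiable ℝ (A i) := fun i => (hA i).smooth.differentiable (by simp)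
  simp_rw [fun i => deriv2_scale (hA i).smooth, fun i => deriv_scale (hd i)]
  generalize a0 + α * t = a at *
  have h1 : (α / a) ^ 2 * (∑ i, (6 * (deriv (A i) (x i ^ 2 / a ^ 2) / a ^ 2) * x i ^ 2 +
      4 * (deriv (deriv (A i)) (x i ^ 2 / a ^ 2) / (a ^ 2) ^ 2) * x i ^ 4)) =
      ∑ i, (deriv (deriv (A i)) ((x i / a) ^ 2) * (-(2 * α / a) * (x i / a) ^ 2) ^ 2 +
        deriv (A i) ((x i / a) ^ 2) * (6 * α ^ 2 / a ^ 2 * (x i / a) ^ 2)) := by
    rw [Finset.mul_sum]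
    refine Finset.sum_congr rfl fun i _ => ?_
    rw [div_pow (x i) a]
    ring
  have h2 : ∑ k, Real.exp (r k + β k * t) / a ^ 2 *
      (3 * (α / a) ^ 2 - 2 * (α / a) * β k + β k ^ 2 / 2) * x (o k) ^ 2 =
      (∑ k, Real.exp (r k + β k * t) *
      (((β k - 2 * α / a) ^ 2 + 2 * α ^ 2 / a ^ 2) * (x (o k) / a) ^ 2)) / 2 := by
    rw [Finset.sum_div]
    refine Finset.sum_congr rfl fun k _ => ?_
    ring
  rw [h1, h2]
  ring

/-! ### second derivatives of `ψ` -/

lemma fderiv_slice {g : (Fin n → ℝ) × ℝ → ℝ} (hg : Differentiable ℝ g) (x v : Fin n → ℝ) (t : ℝ) :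
    fderiv ℝ (fun x => g (x, t)) x v = fderiv ℝ g (x, t) (v, 0) := by
  have h1 : HasFDerivAt (fun x : Fin n → ℝ => (x, t))
      (ContinuousLinearMap.inl ℝ (Fin n → ℝ) ℝ) x := hasFDerivAt_prodMk_left x t
  have h2 := (hg (x, t)).hasFDerivAt.comp x h1
  have h3 := h2.fderiv
  simp only [Function.comp_def] at h3
  rw [h3]
  simp

lemma fderiv_apply_slice (hψ : ContDiff ℝ ∞ ψ) (w : (Fin n → ℝ) × ℝ) (x v : Fin n → ℝ) (t : ℝ) :
    fderiv ℝ (fun x => fderiv ℝ ψ (x, t) w) x v = fderiv ℝ (fderiv ℝ ψ) (x, t) (v, 0) w := by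
  have hd : Differentiable ℝ (fderiv ℝ ψ) :=
    (hψ.fderiv_right (m := ∞) (by simp)).differentiable (by simp)
  have hg : Differentiable ℝ (fun z => fderiv ℝ ψ z w) := by fun_prop
  rw [fderiv_slice (g := fun z => fderiv ℝ ψ z w) hg]
  rw [fderiv_clm_apply (hd _) (differentiableAt_const _)]
  simp

lemma second_nonneg (hψ : ContDiff ℝ ∞ ψ) {t0 t1 : ℝ} (hcv : ConvexOn ℝ (univ ×ˢ Ioo t0 t1) ψ)
    {t : ℝ} (ht : t ∈ Ioo t0 t1) (x v : Fin n → ℝ) :
    0 ≤ fderiv ℝ (fderiv ℝ ψ) (x, t) (v, 1) (v, 1) := by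
  set z : (Fin n → ℝ) × ℝ := (x, t)
  set w : (Fin n → ℝ) × ℝ := (v, 1)
  have hψd : Differentiable ℝ ψ := hψ.differentiable (by simp)
  have hd : Differentiable ℝ (fderiv ℝ ψ) :=
    (hψ.fderiv_right (m := ∞) (by simp)).differentiable (by simp)
  have hline : ∀ s : ℝ, HasDerivAt (fun s : ℝ => z + s • w) w s := by
    intro s
    simpa using ((hasDerivAt_id s).smul_const w).const_add z
  have h1 : ∀ s, HasDerivAt (fun s : ℝ => ψ (z + s • w)) (fderiv ℝ ψ (z + s • w) w) s := fun s =>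
    (hψd _).hasFDerivAt.comp_hasDerivAt s (hline s)
  have h2 : HasDerivAt (fun s : ℝ => fderiv ℝ ψ (z + s • w) w)
      (fderiv ℝ (fderiv ℝ ψ) z w w) 0 := by
    have h3 : HasDerivAt (fun s : ℝ => fderiv ℝ ψ (z + s • w))
        (fderiv ℝ (fderiv ℝ ψ) (z + (0 : ℝ) • w) w) 0 :=
      (hd _).hasFDerivAt.comp_hasDerivAt 0 (hline 0)
    have h4 := h3.clm_apply (hasDerivAt_const 0 w)
    simpa using h4
  -- convexity on the line
  set J : Set ℝ := Ioo (t0 - t) (t1 - t) with hJ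
  have h0J : (0 : ℝ) ∈ J := ⟨by linarith [ht.1], by linarith [ht.2]⟩
  have hconv : ConvexOn ℝ J (fun s : ℝ => ψ (z + s • w)) := by
    have h3 := hcv.comp_affineMap (AffineMap.lineMap z (z + w) : ℝ →ᵃ[ℝ] ((Fin n → ℝ) × ℝ))
    have e : (ψ ∘ (AffineMap.lineMap z (z + w) : ℝ →ᵃ[ℝ] ((Fin n → ℝ) × ℝ))) =
        fun s : ℝ => ψ (z + s • w) := by
      ext s
      simp only [Function.comp_apply]
      rw [AffineMap.lineMap_apply]
      simp [add_comm]
    rw [e] at h3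
    refine h3.subset ?_ (convex_Ioo _ _)
    intro s hs
    have e2 : (AffineMap.lineMap z (z + w) : ℝ →ᵃ[ℝ] ((Fin n → ℝ) × ℝ)) s = z + s • w := by
      rw [AffineMap.lineMap_apply]
      simp [add_comm]
    rw [mem_preimage, e2]
    refine ⟨trivial, ?_⟩
    change t + s * 1 ∈ Ioo t0 t1
    exact ⟨by linarith [hs.1], by linarith [hs.2]⟩
  have hmono := hconv.monotoneOn_deriv (fun s _ => (h1 s).differentiableAt)
  have hder : deriv (fun s : ℝ => ψ (z + s • w)) = fun s => fderiv ℝ ψ (z + s • w) w :=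
    funext fun s => (h1 s).deriv
  rw [hder] at hmono
  have h5 := hmono.derivWithin_nonneg (x := 0)
  have h6 : derivWithin (fun s => fderiv ℝ ψ (z + s • w) w) J 0 =
      fderiv ℝ (fderiv ℝ ψ) z w w := by
    rw [derivWithin_of_mem_nhds (Ioo_mem_nhds h0J.1 h0J.2)]
    exact h2.deriv
  rwa [h6] at h5

lemma static_transfer (h : Static) (hA : ∀ i, Adm (A i)) (hψ : ContDiff ℝ ∞ ψ)
    (hev : ∀ x t, ψ (-x, t) = ψ (x, t)) {t0 t1 : ℝ} (hcv : ConvexOn ℝ (univ ×ˢ Ioo t0 t1) ψ)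
    (ha : ∀ t ∈ Ioo t0 t1, 0 < a0 + α * t)
    (hb1 : ∃ C : ℝ, ∀ z, ‖fderiv ℝ ψ z‖ ≤ C) (hb2 : ∃ C : ℝ, ∀ z, ‖fderiv ℝ (fderiv ℝ ψ) z‖ ≤ C)
    (t : ℝ) (ht : t ∈ Ioo t0 t1) :
    (∫ x, Real.exp (-W0 o A r β a0 α ψ t x)) *
        (∫ x, W1 o A r β a0 α ψ t x ^ 2 * Real.exp (-W0 o A r β a0 α ψ t x)) -
      (∫ x, W1 o A r β a0 α ψ t x * Real.exp (-W0 o A r β a0 α ψ t x)) ^ 2 ≤
      (∫ x, Real.exp (-W0 o A r β a0 α ψ t x)) *
        ∫ x, W2 o A r β a0 α ψ t x * Real.exp (-W0 o A r β a0 α ψ t x) := by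
  have hat := ha t ht
  have hψd : Differentiable ℝ ψ := hψ.differentiable (by simp)
  have hd : Differentiable ℝ (fderiv ℝ ψ) :=
    (hψ.fderiv_right (m := ∞) (by simp)).differentiable (by simp)
  have hdc : Continuous (fderiv ℝ (fderiv ℝ ψ)) :=
    (hψ.fderiv_right (m := ∞) (by simp)).continuous_fderiv (by simp)
  have n1 : ∀ v : Fin n → ℝ, ‖((v : Fin n → ℝ), (0 : ℝ))‖ = ‖v‖ := fun v => by
    simp [Prod.norm_def]
  have n2 : ‖((0 : Fin n → ℝ), (1 : ℝ))‖ = 1 := by simp [Prod.norm_def]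
  have H := h n d o (fun i s => A i (s / (a0 + α * t) ^ 2))
    (fun k => Real.exp (r k + β k * t) / (a0 + α * t) ^ 2) β (α / (a0 + α * t))
    (fun x => ψ (x, t)) (fun x => fderiv ℝ ψ (x, t) (0, 1))
    (fun x => fderiv ℝ (fderiv ℝ ψ) (x, t) (0, 1) (0, 1))
    (fun i => adm_scale (hA i) (by positivity)) (fun k => by positivity)
    (hψ.comp (contDiff_prodMk_left t)) (fun x => hev x t)
    (by
      refine ⟨convex_univ, fun x _ y _ a b ha0 hb0 hab => ?_⟩
      have m1 : ((x, t) : (Fin n → ℝ) × ℝ) ∈ univ ×ˢ Ioo t0 t1 := ⟨trivial, ht⟩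
      have m2 : ((y, t) : (Fin n → ℝ) × ℝ) ∈ univ ×ˢ Ioo t0 t1 := ⟨trivial, ht⟩
      have h6 := hcv.2 m1 m2 ha0 hb0 hab
      have e : a • ((x, t) : (Fin n → ℝ) × ℝ) + b • (y, t) = (a • x + b • y, t) := by
        ext
        · simp
        · simp only [Prod.snd_add, Prod.smul_snd, smul_eq_mul]
          rw [← add_mul, hab, one_mul]
      rwa [e] at h6)
    (by
      obtain ⟨C, hC⟩ := hb1
      refine ⟨C, fun x => ContinuousLinearMap.opNorm_le_bound _
        ((norm_nonneg _).trans (hC (x, t))) fun v => ?_⟩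
      rw [fderiv_slice hψd]
      refine ((fderiv ℝ ψ (x, t)).le_opNorm _).trans ?_
      rw [n1]
      exact mul_le_mul_of_nonneg_right (hC _) (norm_nonneg _))
    (((hψ.fderiv_right (m := ∞) (by simp)).clm_apply contDiff_const).comp (contDiff_prodMk_left t))
    (by
      intro x
      have h1 := hasDerivAt_psi hψd (-x) t
      have h2 := hasDerivAt_psi hψd x t
      have e : (fun t => ψ (-x, t)) = fun t => ψ (x, t) := funext fun t => hev x t
      rw [e] at h1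
      exact h1.unique h2)
    (by
      obtain ⟨C, hC⟩ := hb1
      refine ⟨C, fun x => ?_⟩
      have := (fderiv ℝ ψ (x, t)).le_opNorm ((0 : Fin n → ℝ), (1 : ℝ))
      rw [n2, mul_one] at this
      exact this.trans (hC _))
    (by fun_prop)
    (by
      obtain ⟨C, hC⟩ := hb2
      refine ⟨C, fun x => ?_⟩
      have := (fderiv ℝ (fderiv ℝ ψ) (x, t)).le_opNorm₂ ((0 : Fin n → ℝ), (1 : ℝ))
        ((0 : Fin n → ℝ), (1 : ℝ))
      rw [n2, mul_one, mul_one] at this
      exact this.trans (hC _))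
    (by
      intro x ξ
      set L := fderiv ℝ (fderiv ℝ ψ) (x, t) with hL
      have hsymm : ∀ v w, L v w = L w v := by
        have h2 : IsSymmSndFDerivAt ℝ ψ (x, t) :=
          ((contDiff_infty.1 hψ 2).contDiffAt).isSymmSndFDerivAt (by simp)
        intro v w
        exact h2 _ _
      have p1 : ∀ i j, pd i (pd j fun x => ψ (x, t)) x =
          L (Pi.single i 1, 0) (Pi.single j 1, 0) := by
        intro i j
        have e : (pd j fun x => ψ (x, t)) = fun x => fderiv ℝ ψ (x, t) (Pi.single j 1, 0) := by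
          ext x
          exact fderiv_slice hψd x _ t
        rw [e]
        exact fderiv_apply_slice hψ _ x _ t
      have p2 : ∀ i, pd i (fun x => fderiv ℝ ψ (x, t) (0, 1)) x = L (Pi.single i 1, 0) (0, 1) :=
        fun i => fderiv_apply_slice hψ _ x _ t
      simp_rw [p1, p2]
      have hξ : ((ξ, 0) : (Fin n → ℝ) × ℝ) =
          ∑ i, ξ i • ((Pi.single i 1, 0) : (Fin n → ℝ) × ℝ) := by
        have h1 : ξ = ∑ i, ξ i • (Pi.single i 1 : Fin n → ℝ) := by
          ext j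
          simp [Finset.sum_apply, Pi.single_apply]
        ext j
        · rw [Prod.fst_sum]
          simp only [Prod.smul_fst]
          rw [← h1]
        · rw [Prod.snd_sum]
          simp
      have s1 : ∀ w, L (ξ, 0) w = ∑ i, ξ i * L (Pi.single i 1, 0) w := by
        intro w
        rw [hξ, map_sum, sum_apply]
        refine Finset.sum_congr rfl fun i _ => ?_
        rw [map_smul]
        rfl
      have s2 : L (ξ, 0) (ξ, 0) =
          ∑ i, ∑ j, L (Pi.single i 1, 0) (Pi.single j 1, 0) * ξ i * ξ j := by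
        rw [s1]
        refine Finset.sum_congr rfl fun i _ => ?_
        rw [hsymm, s1, Finset.mul_sum]
        refine Finset.sum_congr rfl fun j _ => ?_
        rw [hsymm]
        ring
      have hw : ((ξ, 1) : (Fin n → ℝ) × ℝ) = (ξ, 0) + (0, 1) := by simp
      have h0 := second_nonneg hψ hcv ht x ξ
      rw [← hL, hw] at h0
      simp only [map_add, add_apply] at h0
      rw [hsymm (0, 1) (ξ, 0), s2, s1 (0, 1)] at h0
      linarith)
  simp_rw [psi_eq, hf_eq o r β a0 α hA t, ff_eq o r β a0 α hA t] at H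
  exact H

end potential

/-- M8 -/
theorem diff (h : Static) : LCsmooth := by
  intro n d o A r β a0 α t0 t1 ψ hA ha hψ hev hcv hb1 hb2
  exact logconc_abstract (W0 o A r β a0 α ψ) (W1 o A r β a0 α ψ) (W2 o A r β a0 α ψ) t0 t1
    (fun t _ => continuous_W0 o r β a0 α hA hψ t) (fun t _ => continuous_W1 o r β a0 α hA hψ t)
    (fun t _ => continuous_W2 o r β a0 α hA hψ t)
    (fun x t ht => hasDerivAt_W0 o r β a0 α hA hψ x t (ha t ht).ne')
    (fun x t ht => hasDerivAt_W1 o r β a0 α hA hψ x t (ha t ht).ne')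
    (fun t ht => bound_aux o r β a0 α hA hψ hev hcv ha hb1 hb2 t ht)
    (fun t ht => static_transfer o r β a0 α h hA hψ hev hcv ha hb1 hb2 t ht)

end Pool.Agent.Lib.MP_2d002d_gt.H70
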